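import Mathlib

set_option autoImplicit false

universe u v w

namespace Pool.Agent.Results.MP_6a819e_al.FlatCoverConjecture

open MulOpposite Function

/-!
# The flat cover conjecture for acts over arbitrary monoids

Right `S`-acts are types with `MulAction Sᵐᵒᵖ`, where `a s` is `op s • a`; left `S`-acts are types
with `MulAction S`.
-/

section Defs

variable (S : Type u) [Monoid S]

/-- `A ⊗_S M`: the quotient of `A × M` by the equivalence relation generated by
`(a s, m) ~ (a, s m)`, for a right act `A` and a left act `M`. -/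
def Tensor (A : Type v) (M : Type w) [MulAction Sᵐᵒᵖ A] [MulAction S M] : Type (max v w) :=
  Quot (fun p q : A × M => ∃ (a : A) (s : S) (m : M), p = (op s • a, m) ∧ q = (a, s • m))

/-- The map `A ⊗_S M → A ⊗_S N` induced by a morphism `i : M → N` of left acts. -/
def Tensor.map (A : Type v) {M N : Type w} [MulAction Sᵐᵒᵖ A] [MulAction S M] [MulAction S N]
    (i : M →[S] N) : Tensor S A M → Tensor S A N :=
  Quot.map (fun p => (p.1, i p.2)) (by
    rintro _ _ ⟨a, s, m, rfl, rfl⟩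
    exact ⟨a, s, i m, rfl, by simp⟩)

/-- A right act `A` is flat if `A ⊗_S -` sends every injective morphism of left acts to an
injective map. -/
def IsFlat (A : Type v) [MulAction Sᵐᵒᵖ A] : Prop :=
  ∀ (M N : Type u) [MulAction S M] [MulAction S N] (i : M →[S] N), Injective i →
    Injective (Tensor.map S A i)

/-- `g : F → X` is a flat cover of the right act `X`: `F` is flat (and nonempty), every morphism
from a flat act to `X` factors through `g`, and every endomorphism `f` of `F` with `g f = g` is an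
automorphism. -/
structure IsFlatCover {F X : Type u} [MulAction Sᵐᵒᵖ F] [MulAction Sᵐᵒᵖ X]
    (g : F →[Sᵐᵒᵖ] X) : Prop where
  nonempty : Nonempty F
  flat : IsFlat S F
  factor : ∀ (F' : Type u) [MulAction Sᵐᵒᵖ F'], IsFlat S F' →
    ∀ h : F' →[Sᵐᵒᵖ] X, ∃ f : F' →[Sᵐᵒᵖ] F, ∀ x, g (f x) = h x
  auto : ∀ f : F →[Sᵐᵒᵖ] F, (∀ x, g (f x) = g x) →
    ∃ f' : F →[Sᵐᵒᵖ] F, (∀ x, f' (f x) = x) ∧ ∀ x, f (f' x) = x

end Defs

section Paths

variable {S : Type u} [Monoid S] {A : Type v} [MulAction Sᵐᵒᵖ A] {B : Type w} [MulAction Sᵐᵒᵖ B]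

/-- Zigzags of shape `w` in a right act. -/
def RPath : List (Bool × S) → A → A → Prop
  | [], a, a' => a = a'
  | (true, s) :: w, a, a' => ∃ b, op s • b = a ∧ RPath w b a'
  | (false, s) :: w, a, a' => RPath w (op s • a) a'

/-- Zigzags of shape `w` in a left act. -/
def LPath {M : Type v} [MulAction S M] : List (Bool × S) → M → M → Prop
  | [], m, m' => m = m'
  | (true, s) :: w, m, m' => LPath w (s • m) m'
  | (false, s) :: w, m, m' => ∃ n, s • n = m ∧ LPath w n m'

/-- The reversed shape. -/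
def winv : List (Bool × S) → List (Bool × S)
  | [] => []
  | (b, s) :: w => winv w ++ [(!b, s)]

lemma RPath.append (w₁ w₂ : List (Bool × S)) (a c : A) :
    RPath (w₁ ++ w₂) a c ↔ ∃ b, RPath w₁ a b ∧ RPath w₂ b c := by
  induction w₁ generalizing a with
  | nil => simp [RPath]
  | cons p w₁ ih =>
    rcases p with ⟨_ | _, s⟩
    · simp only [List.cons_append, RPath]
      exact ih _
    · simp only [List.cons_append, RPath]
      constructor
      · rintro ⟨b, hb, h⟩
        obtain ⟨d, h1, h2⟩ := (ih b).1 h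
        exact ⟨d, ⟨b, hb, h1⟩, h2⟩
      · rintro ⟨d, ⟨b, hb, h1⟩, h2⟩
        exact ⟨b, hb, (ih b).2 ⟨d, h1, h2⟩⟩

lemma LPath.append {M : Type v} [MulAction S M] (w₁ w₂ : List (Bool × S)) (a c : M) :
    LPath (w₁ ++ w₂) a c ↔ ∃ b, LPath w₁ a b ∧ LPath w₂ b c := by
  induction w₁ generalizing a with
  | nil => simp [LPath]
  | cons p w₁ ih =>
    rcases p with ⟨_ | _, s⟩
    · simp only [List.cons_append, LPath]
      constructor
      · rintro ⟨b, hb, h⟩
        obtain ⟨d, h1, h2⟩ := (ih b).1 h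
        exact ⟨d, ⟨b, hb, h1⟩, h2⟩
      · rintro ⟨d, ⟨b, hb, h1⟩, h2⟩
        exact ⟨b, hb, (ih b).2 ⟨d, h1, h2⟩⟩
    · simp only [List.cons_append, LPath]
      exact ih _

lemma RPath.inv {w : List (Bool × S)} {a b : A} (h : RPath w a b) : RPath (winv w) b a := by
  induction w generalizing a with
  | nil => exact h.symm
  | cons p w ih =>
    rcases p with ⟨_ | _, s⟩
    · exact (RPath.append _ _ _ _).2 ⟨_, ih h, a, rfl, rfl⟩
    · obtain ⟨c, hc, h⟩ := h
      exact (RPath.append _ _ _ _).2 ⟨_, ih h, hc⟩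

lemma LPath.inv {M : Type v} [MulAction S M] {w : List (Bool × S)} {a b : M} (h : LPath w a b) :
    LPath (winv w) b a := by
  induction w generalizing a with
  | nil => exact h.symm
  | cons p w ih =>
    rcases p with ⟨_ | _, s⟩
    · obtain ⟨c, hc, h⟩ := h
      exact (LPath.append _ _ _ _).2 ⟨_, ih h, hc⟩
    · exact (LPath.append _ _ _ _).2 ⟨_, ih h, a, rfl, rfl⟩

lemma RPath.map (f : A →[Sᵐᵒᵖ] B) {w : List (Bool × S)} {a b : A} (h : RPath w a b) :
    RPath w (f a) (f b) := by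
  induction w generalizing a with
  | nil => exact congrArg f h
  | cons p w ih =>
    rcases p with ⟨_ | _, s⟩
    · have := ih h
      rw [map_smul] at this
      exact this
    · obtain ⟨c, hc, h⟩ := h
      exact ⟨f c, by rw [← hc, map_smul], ih h⟩

lemma tensor_eq_iff {M : Type w} [MulAction S M] (a a' : A) (m m' : M) :
    (Quot.mk _ (a, m) : Tensor S A M) = Quot.mk _ (a', m') ↔
      ∃ w : List (Bool × S), RPath w a a' ∧ LPath w m m' := by
  constructor
  · intro h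
    have key : ∀ p q : A × M, Relation.EqvGen (fun p q : A × M => ∃ (a : A) (s : S) (m : M),
        p = (op s • a, m) ∧ q = (a, s • m)) p q →
        ∃ w : List (Bool × S), RPath w p.1 q.1 ∧ LPath w p.2 q.2 := by
      intro p q h
      induction h with
      | rel p q h =>
        obtain ⟨a, s, m, rfl, rfl⟩ := h
        exact ⟨[(true, s)], ⟨a, rfl, rfl⟩, rfl⟩
      | refl p => exact ⟨[], rfl, rfl⟩
      | symm p q _ ih =>
        obtain ⟨w, h1, h2⟩ := ih
        exact ⟨winv w, h1.inv, h2.inv⟩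
      | trans p q r _ _ ih1 ih2 =>
        obtain ⟨w, h1, h2⟩ := ih1
        obtain ⟨w', h1', h2'⟩ := ih2
        exact ⟨w ++ w', (RPath.append _ _ _ _).2 ⟨_, h1, h1'⟩,
          (LPath.append _ _ _ _).2 ⟨_, h2, h2'⟩⟩
    exact key _ _ (Quot.eqvGen_exact h)
  · rintro ⟨w, h1, h2⟩
    induction w generalizing a m with
    | nil => rw [show a = a' from h1, show m = m' from h2]
    | cons p w ih =>
      rcases p with ⟨_ | _, s⟩
      · obtain ⟨n, rfl, h2⟩ := h2
        rw [← ih _ _ h1 h2]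
        exact (Quot.sound ⟨a, s, n, rfl, rfl⟩).symm
      · obtain ⟨b, rfl, h1⟩ := h1
        rw [← ih _ _ h1 h2]
        exact Quot.sound ⟨b, s, m, rfl, rfl⟩

lemma isFlat_iff : IsFlat S A ↔ ∀ (M N : Type u) [MulAction S M] [MulAction S N] (i : M →[S] N),
    Injective i → ∀ (w : List (Bool × S)) (a a' : A) (m m' : M), RPath w a a' →
      LPath w (i m) (i m') → ∃ w' : List (Bool × S), RPath w' a a' ∧ LPath w' m m' := by
  constructor
  · intro h M N _ _ i hi w a a' m m' h1 h2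
    have h3 : Tensor.map S A i (Quot.mk _ (a, m)) = Tensor.map S A i (Quot.mk _ (a', m')) :=
      (tensor_eq_iff a a' (i m) (i m')).2 ⟨w, h1, h2⟩
    exact (tensor_eq_iff a a' m m').1 (h M N i hi h3)
  · intro h M N _ _ i hi
    rintro ⟨a, m⟩ ⟨a', m'⟩ h3
    obtain ⟨w, h1, h2⟩ := (tensor_eq_iff a a' (i m) (i m')).1 h3
    exact (tensor_eq_iff a a' m m').2 (h M N i hi w a a' m m' h1 h2)

/-- Word-pure morphisms of right acts. -/
structure WPure (f : A →[Sᵐᵒᵖ] B) : Prop where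
  p1 : ∀ (w : List (Bool × S)) (a a' : A), RPath w (f a) (f a') → RPath w a a'
  p2 : ∀ (w : List (Bool × S)) (a : A) (b : B), RPath w (f a) b → ∃ a', RPath w a a'

lemma WPure.inj {f : A →[Sᵐᵒᵖ] B} (hf : WPure f) : Injective f := fun a a' h => hf.p1 [] a a' h

lemma WPure.isFlat {f : A →[Sᵐᵒᵖ] B} (hf : WPure f) (hB : IsFlat S B) : IsFlat S A := by
  rw [isFlat_iff] at hB ⊢
  intro M N _ _ i hi w a a' m m' h1 h2
  obtain ⟨w', h3, h4⟩ := hB M N i hi w (f a) (f a') m m' (h1.map f) h2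
  exact ⟨w', hf.p1 _ _ _ h3, h4⟩

end Paths

section Pushout

variable {S : Type u} [Monoid S]

/-- `P` is the amalgam of `B` and `C` over `A`. -/
structure IsPO {A B C P : Type u} [MulAction Sᵐᵒᵖ A] [MulAction Sᵐᵒᵖ B] [MulAction Sᵐᵒᵖ C]
    [MulAction Sᵐᵒᵖ P] (f : A →[Sᵐᵒᵖ] B) (g : A →[Sᵐᵒᵖ] C) (i : B →[Sᵐᵒᵖ] P)
    (j : C →[Sᵐᵒᵖ] P) : Prop where
  comm : ∀ a, i (f a) = j (g a)
  injl : Injective i
  injr : Injective j
  surj : ∀ p, (∃ b, i b = p) ∨ ∃ c, j c = p
  glue : ∀ b c, i b = j c → ∃ a, f a = b ∧ g a = c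

lemma IsPO.symm {A B C P : Type u} [MulAction Sᵐᵒᵖ A] [MulAction Sᵐᵒᵖ B] [MulAction Sᵐᵒᵖ C]
    [MulAction Sᵐᵒᵖ P] {f : A →[Sᵐᵒᵖ] B} {g : A →[Sᵐᵒᵖ] C} {i : B →[Sᵐᵒᵖ] P}
    {j : C →[Sᵐᵒᵖ] P} (h : IsPO f g i j) : IsPO g f j i where
  comm a := (h.comm a).symm
  injl := h.injr
  injr := h.injl
  surj p := (h.surj p).symm
  glue c b e := by
    obtain ⟨a, h1, h2⟩ := h.glue b c e.symm
    exact ⟨a, h2, h1⟩

lemma IsPO.paths (w : List (Bool × S)) : ∀ {A B C P : Type u} [MulAction Sᵐᵒᵖ A]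
    [MulAction Sᵐᵒᵖ B] [MulAction Sᵐᵒᵖ C] [MulAction Sᵐᵒᵖ P] {f : A →[Sᵐᵒᵖ] B}
    {g : A →[Sᵐᵒᵖ] C} {i : B →[Sᵐᵒᵖ] P} {j : C →[Sᵐᵒᵖ] P}, IsPO f g i j → WPure f → WPure g →
    (∀ b b', RPath w (i b) (i b') → RPath w b b') ∧
    (∀ b c, RPath w (i b) (j c) → ∃ w₁ w₂ a, w = w₁ ++ w₂ ∧ RPath w₁ b (f a) ∧
      RPath w₂ (g a) c) := by
  induction w with
  | nil =>
    intro A B C P _ _ _ _ f g i j h hf hg
    refine ⟨fun b b' h0 => h.injl h0, fun b c h0 => ?_⟩
    obtain ⟨a, rfl, rfl⟩ := h.glue b c h0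
    exact ⟨[], [], a, rfl, rfl, rfl⟩
  | cons p w ih =>
    intro A B C P _ _ _ _ f g i j h hf hg
    rcases p with ⟨_ | _, s⟩
    · constructor
      · intro b b' h0
        have h0' : RPath w (op s • i b) (i b') := h0
        rw [← map_smul] at h0'
        exact (ih h hf hg).1 _ _ h0'
      · intro b c h0
        have h0' : RPath w (op s • i b) (j c) := h0
        rw [← map_smul] at h0'
        obtain ⟨w₁, w₂, a, rfl, h1, h2⟩ := (ih h hf hg).2 _ _ h0'
        exact ⟨(false, s) :: w₁, w₂, a, rfl, h1, h2⟩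
    · constructor
      · rintro b b' ⟨q, hq, h0⟩
        rcases h.surj q with ⟨b1, rfl⟩ | ⟨c1, rfl⟩
        · rw [← map_smul] at hq
          exact ⟨b1, h.injl hq, (ih h hf hg).1 _ _ h0⟩
        · rw [← map_smul] at hq
          obtain ⟨a, rfl, ha⟩ := h.glue _ _ hq.symm
          obtain ⟨w₁, w₂, a', rfl, h1, h2⟩ := (ih h.symm hg hf).2 _ _ h0
          have h3 : RPath ((true, s) :: w₁) (g a) (g a') := ⟨c1, ha.symm, h1⟩
          have h4 := (hg.p1 _ _ _ h3).map f
          exact (RPath.append ((true, s) :: w₁) w₂ _ _).2 ⟨_, h4, h2⟩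
      · rintro b c ⟨q, hq, h0⟩
        rcases h.surj q with ⟨b1, rfl⟩ | ⟨c1, rfl⟩
        · rw [← map_smul] at hq
          obtain ⟨w₁, w₂, a, rfl, h1, h2⟩ := (ih h hf hg).2 _ _ h0
          exact ⟨(true, s) :: w₁, w₂, a, rfl, ⟨b1, h.injl hq, h1⟩, h2⟩
        · rw [← map_smul] at hq
          obtain ⟨a, rfl, ha⟩ := h.glue _ _ hq.symm
          exact ⟨[], (true, s) :: w, a, rfl, rfl, c1, ha.symm, (ih h.symm hg hf).1 _ _ h0⟩

variable {A B C P : Type u} [MulAction Sᵐᵒᵖ A] [MulAction Sᵐᵒᵖ B] [MulAction Sᵐᵒᵖ C]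
    [MulAction Sᵐᵒᵖ P] {f : A →[Sᵐᵒᵖ] B} {g : A →[Sᵐᵒᵖ] C} {i : B →[Sᵐᵒᵖ] P}
    {j : C →[Sᵐᵒᵖ] P}

lemma IsPO.pure (h : IsPO f g i j) (hf : WPure f) (hg : WPure g) : WPure i where
  p1 w b b' h0 := (h.paths w hf hg).1 b b' h0
  p2 w b p h0 := by
    rcases h.surj p with ⟨b', rfl⟩ | ⟨c, rfl⟩
    · exact ⟨b', (h.paths w hf hg).1 b b' h0⟩
    · obtain ⟨w₁, w₂, a, rfl, h1, h2⟩ := (h.paths w hf hg).2 b c h0
      obtain ⟨a', ha'⟩ := hg.p2 _ _ _ h2
      exact ⟨f a', (RPath.append _ _ _ _).2 ⟨_, h1, ha'.map f⟩⟩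

lemma IsPO.flat_aux (h : IsPO f g i j) (hf : WPure f) (hg : WPure g) (hB : IsFlat S B)
    (hC : IsFlat S C) (M N : Type u) [MulAction S M] [MulAction S N] (e : M →[S] N)
    (he : Injective e) (w : List (Bool × S)) (b : B) (p : P) (m m' : M)
    (h1 : RPath w (i b) p) (h2 : LPath w (e m) (e m')) :
    ∃ w' : List (Bool × S), RPath w' (i b) p ∧ LPath w' m m' := by
  rw [isFlat_iff] at hB hC
  rcases h.surj p with ⟨b', rfl⟩ | ⟨c, rfl⟩
  · obtain ⟨w', h3, h4⟩ := hB M N e he w b b' m m' ((h.paths w hf hg).1 b b' h1) h2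
    exact ⟨w', h3.map i, h4⟩
  · obtain ⟨w₁, w₂, a, rfl, h3, h4⟩ := (h.paths w hf hg).2 b c h1
    obtain ⟨n, h5, h6⟩ := (LPath.append _ _ _ _).1 h2
    obtain ⟨a', ha'⟩ := hg.p2 _ _ _ h4
    obtain ⟨v₁, h7, h8⟩ := hB M N e he (w₁ ++ w₂) b (f a') m m'
      ((RPath.append _ _ _ _).2 ⟨_, h3, ha'.map f⟩) h2
    obtain ⟨v₂, h9, h10⟩ := hC M N e he (winv w₂ ++ w₂) (g a') c m' m'
      ((RPath.append _ _ _ _).2 ⟨_, (ha'.map g).inv, h4⟩)
      ((LPath.append _ _ _ _).2 ⟨_, h6.inv, h6⟩)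
    refine ⟨v₁ ++ v₂, (RPath.append _ _ _ _).2 ⟨_, h7.map i, ?_⟩,
      (LPath.append _ _ _ _).2 ⟨_, h8, h10⟩⟩
    rw [h.comm]
    exact h9.map j

lemma IsPO.flat (h : IsPO f g i j) (hf : WPure f) (hg : WPure g) (hB : IsFlat S B)
    (hC : IsFlat S C) : IsFlat S P := by
  rw [isFlat_iff]
  intro M N _ _ e he w p p' m m' h1 h2
  rcases h.surj p with ⟨b, rfl⟩ | ⟨c, rfl⟩
  · exact h.flat_aux hf hg hB hC M N e he w b p' m m' h1 h2
  · exact h.symm.flat_aux hg hf hC hB M N e he w c p' m m' h1 h2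

/-- The gluing relation on `B ⊕ C`. -/
def poRel (f : A →[Sᵐᵒᵖ] B) (g : A →[Sᵐᵒᵖ] C) : B ⊕ C → B ⊕ C → Prop
  | .inl b, .inl b' => b = b'
  | .inl b, .inr c => ∃ a, f a = b ∧ g a = c
  | .inr c, .inl b => ∃ a, f a = b ∧ g a = c
  | .inr c, .inr c' => c = c'

/-- The gluing relation is an equivalence relation for injective morphisms. -/
def poSetoid (f : A →[Sᵐᵒᵖ] B) (g : A →[Sᵐᵒᵖ] C) (hf : Injective f) (hg : Injective g) :
    Setoid (B ⊕ C) where
  r := poRel f g
  iseqv := by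
    refine ⟨?_, ?_, ?_⟩
    · rintro (b | c) <;> rfl
    · rintro (b | c) (b' | c') h
      · exact Eq.symm h
      · exact h
      · exact h
      · exact Eq.symm h
    · rintro (b | c) (b' | c') (b'' | c'') h h'
      · exact Eq.trans h h'
      · have h0 : b = b' := h
        subst h0
        exact h'
      · obtain ⟨a, rfl, rfl⟩ := h
        obtain ⟨a', rfl, h1⟩ := h'
        exact congrArg f (hg h1.symm)
      · have h0 : c' = c'' := h'
        subst h0
        exact h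
      · have h0 : b' = b'' := h'
        subst h0
        exact h
      · obtain ⟨a, rfl, rfl⟩ := h
        obtain ⟨a', h1, rfl⟩ := h'
        exact congrArg g (hf h1.symm)
      · have h0 : c = c' := h
        subst h0
        exact h'
      · exact Eq.trans h h'

lemma exists_po {X : Type u} [MulAction Sᵐᵒᵖ X] (f : A →[Sᵐᵒᵖ] B) (g : A →[Sᵐᵒᵖ] C)
    (hf : Injective f) (hg : Injective g) (πB : B →[Sᵐᵒᵖ] X) (πC : C →[Sᵐᵒᵖ] X)
    (hπ : ∀ a, πB (f a) = πC (g a)) :
    ∃ (P : Type u) (_ : MulAction Sᵐᵒᵖ P) (i : B →[Sᵐᵒᵖ] P) (j : C →[Sᵐᵒᵖ] P)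
      (π : P →[Sᵐᵒᵖ] X), IsPO f g i j ∧ (∀ b, π (i b) = πB b) ∧ ∀ c, π (j c) = πC c := by
  let st := poSetoid f g hf hg
  let act : Sᵐᵒᵖ → Quotient st → Quotient st := fun s =>
    Quotient.map (Sum.map (fun b => s • b) (fun c => s • c)) (by
      rintro (b | c) (b' | c') h
      · exact congrArg (fun x => s • x) h
      · obtain ⟨a, rfl, rfl⟩ := h
        exact ⟨s • a, map_smul _ _ _, map_smul _ _ _⟩
      · obtain ⟨a, rfl, rfl⟩ := h
        exact ⟨s • a, map_smul _ _ _, map_smul _ _ _⟩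
      · exact congrArg (fun x => s • x) h)
  let inst : MulAction Sᵐᵒᵖ (Quotient st) :=
    { smul := act
      one_smul := by
        rintro ⟨b | c⟩
        · exact congrArg (fun x => Quotient.mk st (Sum.inl x)) (one_smul _ b)
        · exact congrArg (fun x => Quotient.mk st (Sum.inr x)) (one_smul _ c)
      mul_smul := by
        rintro s t ⟨b | c⟩
        · exact congrArg (fun x => Quotient.mk st (Sum.inl x)) (mul_smul s t b)
        · exact congrArg (fun x => Quotient.mk st (Sum.inr x)) (mul_smul s t c) }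
  refine ⟨Quotient st, inst, ⟨fun b => Quotient.mk st (Sum.inl b), fun s b => rfl⟩,
    ⟨fun c => Quotient.mk st (Sum.inr c), fun s c => rfl⟩,
    ⟨Quotient.lift (Sum.elim πB πC) ?_, ?_⟩, ⟨?_, ?_, ?_, ?_, ?_⟩, ?_, ?_⟩
  · rintro (b | c) (b' | c') h
    · exact congrArg πB h
    · obtain ⟨a, rfl, rfl⟩ := h
      exact hπ a
    · obtain ⟨a, rfl, rfl⟩ := h
      exact (hπ a).symm
    · exact congrArg πC h
  · rintro s ⟨b | c⟩
    · exact map_smul πB s b
    · exact map_smul πC s c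
  · intro a
    exact Quotient.sound ⟨a, rfl, rfl⟩
  · intro b b' h
    exact Quotient.exact h
  · intro c c' h
    exact Quotient.exact h
  · rintro ⟨b | c⟩
    · exact Or.inl ⟨b, rfl⟩
    · exact Or.inr ⟨c, rfl⟩
  · intro b c h
    exact Quotient.exact h
  · intro b
    rfl
  · intro c
    rfl

end Pushout

section Types

variable (S : Type u) [Monoid S] (X : Type u) [MulAction Sᵐᵒᵖ X]

/-- Flat acts over `X`. -/
structure FlatOver : Type (u + 1) where
  carrier : Type u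
  [act : MulAction Sᵐᵒᵖ carrier]
  π : carrier →[Sᵐᵒᵖ] X
  flat : IsFlat S carrier

attribute [instance] FlatOver.act

variable {S X}

/-- Word-pure embeddings over `X`. -/
structure Emb (A B : FlatOver S X) where
  toHom : A.carrier →[Sᵐᵒᵖ] B.carrier
  pure : WPure toHom
  ov : ∀ a, B.π (toHom a) = A.π a

/-- The identity embedding. -/
def Emb.id (A : FlatOver S X) : Emb A A where
  toHom := MulActionHom.id _
  pure := ⟨fun _ _ _ h => h, fun _ _ b h => ⟨b, h⟩⟩
  ov _ := rfl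

/-- Composition of embeddings. -/
def Emb.comp {A B C : FlatOver S X} (g : Emb B C) (f : Emb A B) : Emb A C where
  toHom := g.toHom.comp f.toHom
  pure := ⟨fun w a a' h => f.pure.p1 w a a' (g.pure.p1 w _ _ h), fun w a c h => by
    obtain ⟨b, hb⟩ := g.pure.p2 w _ _ h
    exact f.pure.p2 w _ _ hb⟩
  ov a := by
    rw [← f.ov a]
    exact g.ov _

lemma amalg {A B C : FlatOver S X} (f : Emb A B) (g : Emb A C) :
    ∃ (P : FlatOver S X) (i : Emb B P) (j : Emb C P),
      ∀ a, i.toHom (f.toHom a) = j.toHom (g.toHom a) := by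
  obtain ⟨P, inst, i, j, π, h, h1, h2⟩ := exists_po f.toHom g.toHom f.pure.inj g.pure.inj B.π C.π
    (fun a => by rw [f.ov, g.ov])
  exact ⟨⟨P, π, h.flat f.pure g.pure B.flat C.flat⟩, ⟨i, h.pure f.pure g.pure, h1⟩,
    ⟨j, h.symm.pure g.pure f.pure, h2⟩, h.comm⟩

variable (S X) in
/-- Pointed flat acts over `X`. -/
def Ptd : Type (u + 1) := Σ A : FlatOver S X, A.carrier

/-- Two pointed flat acts have the same type if they can be amalgamated. -/
def TypeRel (p q : Ptd S X) : Prop :=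
  ∃ (G : FlatOver S X) (f : Emb p.1 G) (g : Emb q.1 G), f.toHom p.2 = g.toHom q.2

variable (S X) in
/-- Equality of types is an equivalence relation. -/
def typeSetoid : Setoid (Ptd S X) where
  r := TypeRel
  iseqv := by
    refine ⟨fun p => ⟨p.1, Emb.id _, Emb.id _, rfl⟩, ?_, ?_⟩
    · rintro p q ⟨G, f, g, h⟩
      exact ⟨G, g, f, h.symm⟩
    · rintro p q r ⟨G, f, g, h⟩ ⟨G', f', g', h'⟩
      obtain ⟨P, i, j, hij⟩ := amalg g f'
      refine ⟨P, i.comp f, j.comp g', ?_⟩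
      show i.toHom (f.toHom p.2) = j.toHom (g'.toHom r.2)
      rw [h, hij, h']

variable (S X) in
/-- The act of all types. -/
def BigT : Type (u + 1) := Quotient (typeSetoid S X)

instance : MulAction Sᵐᵒᵖ (BigT S X) where
  smul s := Quotient.map (fun p => ⟨p.1, s • p.2⟩) (by
    rintro p q ⟨G, f, g, h⟩
    refine ⟨G, f, g, ?_⟩
    show f.toHom (s • p.2) = g.toHom (s • q.2)
    rw [map_smul, map_smul, h])
  one_smul := by
    rintro ⟨p⟩
    exact congrArg (fun x => Quotient.mk (typeSetoid S X) ⟨p.1, x⟩) (one_smul _ p.2)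
  mul_smul := by
    rintro s t ⟨p⟩
    exact congrArg (fun x => Quotient.mk (typeSetoid S X) ⟨p.1, x⟩) (mul_smul s t p.2)

/-- The map of a flat act to the act of types. -/
def tau (G : FlatOver S X) : G.carrier →[Sᵐᵒᵖ] BigT S X where
  toFun x := Quotient.mk (typeSetoid S X) ⟨G, x⟩
  map_smul' _ _ := rfl

variable (S X) in
/-- The structure map of the act of types. -/
def bigPi : BigT S X →[Sᵐᵒᵖ] X where
  toFun := Quotient.lift (fun p => p.1.π p.2) (by
    rintro p q ⟨G, f, g, h⟩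
    rw [← f.ov, ← g.ov, h])
  map_smul' := by
    rintro s ⟨p⟩
    exact map_smul p.1.π s p.2

lemma tau_eq {A B : FlatOver S X} (f : Emb A B) (a : A.carrier) :
    tau B (f.toHom a) = tau A a :=
  Quotient.sound ⟨B, Emb.id _, f, rfl⟩

lemma bigT_path (w : List (Bool × S)) : ∀ p q : Ptd S X,
    RPath w (tau p.1 p.2) (tau q.1 q.2) →
    ∃ (G : FlatOver S X) (f : Emb p.1 G) (g : Emb q.1 G),
      RPath w (f.toHom p.2) (g.toHom q.2) := by
  induction w with
  | nil =>
    intro p q h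
    exact Quotient.exact h
  | cons l w ih =>
    intro p q h
    rcases l with ⟨_ | _, s⟩
    · have h0 : RPath w (tau p.1 (op s • p.2)) (tau q.1 q.2) := by
        rw [map_smul]
        exact h
      obtain ⟨G, f, g, h1⟩ := ih ⟨p.1, op s • p.2⟩ q h0
      refine ⟨G, f, g, ?_⟩
      have h1' : RPath w (f.toHom (op s • p.2)) (g.toHom q.2) := h1
      rw [map_smul] at h1'
      exact h1'
    · obtain ⟨⟨r⟩, hr, h⟩ := h
      obtain ⟨G1, f1, g1, h1⟩ := ih r q h
      obtain ⟨G2, f2, g2, h2⟩ := (Quotient.exact hr : TypeRel ⟨r.1, op s • r.2⟩ p)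
      obtain ⟨P, i, j, hij⟩ := amalg f2 f1
      refine ⟨P, i.comp g2, j.comp g1, ?_⟩
      refine ⟨j.toHom (f1.toHom r.2), ?_, h1.map j.toHom⟩
      show op s • j.toHom (f1.toHom r.2) = i.toHom (g2.toHom p.2)
      have h2' : f2.toHom (op s • r.2) = g2.toHom p.2 := h2
      rw [← hij, ← h2', map_smul, map_smul]

lemma bigT_flat : IsFlat S (BigT S X) := by
  rw [isFlat_iff]
  rintro M N _ _ e he w ⟨p⟩ ⟨q⟩ m m' h1 h2
  obtain ⟨G, f, g, h3⟩ := bigT_path w p q h1
  obtain ⟨w', h4, h5⟩ := (isFlat_iff.1 G.flat) M N e he w _ _ m m' h3 h2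
  refine ⟨w', ?_, h5⟩
  have h6 := h4.map (tau G)
  rw [tau_eq, tau_eq] at h6
  exact h6

end Types

section LS

variable (S : Type u) [Monoid S]

/-- Terms generating a small word-pure subact. -/
inductive Tm : Type u
  | pt : Tm
  | act : Tm → S → Tm
  | sk1 : S → List (Bool × S) → Tm → Tm → Tm
  | sk2 : S → List (Bool × S) → Tm → Tm

variable {S} {F : Type u} [MulAction Sᵐᵒᵖ F]

open Classical in
/-- Evaluation of terms. -/
noncomputable def eval (x : F) : Tm S → F
  | .pt => x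
  | .act t s => op s • eval x t
  | .sk1 s w t t' =>
    if h : ∃ b, op s • b = eval x t ∧ RPath w b (eval x t') then h.choose else x
  | .sk2 s w t =>
    if h : ∃ b, op s • b = eval x t ∧ ∃ c, RPath w b c then h.choose else x

/-- The act structure on the terms modulo equality of values. -/
noncomputable instance lsAct (x : F) :
    MulAction Sᵐᵒᵖ (Quotient (Setoid.ker (eval (S := S) x))) where
  smul s := Quotient.map (fun t => Tm.act t s.unop) (by
    intro t t' h
    show op s.unop • eval x t = op s.unop • eval x t'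
    rw [show eval x t = eval x t' from h])
  one_smul := by
    rintro ⟨t⟩
    exact Quotient.sound (one_smul Sᵐᵒᵖ (eval x t))
  mul_smul := by
    rintro s t ⟨r⟩
    exact Quotient.sound (mul_smul s t (eval x r))

/-- The inclusion of the small subact. -/
noncomputable def incl (x : F) : Quotient (Setoid.ker (eval (S := S) x)) →[Sᵐᵒᵖ] F where
  toFun := Quotient.lift (eval x) (fun _ _ h => h)
  map_smul' := by
    rintro s ⟨t⟩
    rfl

lemma incl_inj (x : F) : Injective (incl (S := S) x) := by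
  rintro ⟨t⟩ ⟨t'⟩ h
  exact Quotient.sound h

lemma incl_pure (x : F) : WPure (incl (S := S) x) where
  p1 w := by
    induction w with
    | nil =>
      intro a a' h
      exact incl_inj x h
    | cons l w ih =>
      intro a a' h
      rcases l with ⟨_ | _, s⟩
      · have h' : RPath w (op s • incl x a) (incl x a') := h
        rw [← map_smul] at h'
        exact ih _ _ h'
      · obtain ⟨t, rfl⟩ := Quotient.exists_rep a
        obtain ⟨t', rfl⟩ := Quotient.exists_rep a'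
        have h' : ∃ b, op s • b = eval x t ∧ RPath w b (eval x t') := h
        have h1 : eval x (.sk1 s w t t') = h'.choose := by
          rw [eval, dif_pos h']
        refine ⟨Quotient.mk _ (.sk1 s w t t'), ?_, ?_⟩
        · apply incl_inj x
          rw [map_smul]
          show op s • eval x (.sk1 s w t t') = eval x t
          rw [h1]
          exact h'.choose_spec.1
        · apply ih
          show RPath w (eval x (.sk1 s w t t')) (eval x t')
          rw [h1]
          exact h'.choose_spec.2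
  p2 w := by
    induction w with
    | nil =>
      intro a b _
      exact ⟨a, rfl⟩
    | cons l w ih =>
      intro a c h
      rcases l with ⟨_ | _, s⟩
      · have h' : RPath w (op s • incl x a) c := h
        rw [← map_smul] at h'
        obtain ⟨a', ha'⟩ := ih _ _ h'
        exact ⟨a', ha'⟩
      · obtain ⟨t, rfl⟩ := Quotient.exists_rep a
        have h' : ∃ b, op s • b = eval x t ∧ ∃ c, RPath w b c := by
          obtain ⟨b, hb, h⟩ := h
          exact ⟨b, hb, c, h⟩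
        have h1 : eval x (.sk2 s w t) = h'.choose := by
          rw [eval, dif_pos h']
        obtain ⟨c', hc'⟩ := h'.choose_spec.2
        obtain ⟨a', ha'⟩ := ih (Quotient.mk _ (.sk2 s w t)) c' (by
          show RPath w (eval x (.sk2 s w t)) c'
          rw [h1]
          exact hc')
        refine ⟨a', Quotient.mk _ (.sk2 s w t), ?_, ha'⟩
        apply incl_inj x
        rw [map_smul]
        show op s • eval x (.sk2 s w t) = eval x t
        rw [h1]
        exact h'.choose_spec.1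

variable {X : Type u} [MulAction Sᵐᵒᵖ X]

variable (S X) in
/-- Codes for small pointed flat acts over `X`. -/
structure Code : Type u where
  r : Setoid (Tm S)
  act : MulAction Sᵐᵒᵖ (Quotient r)
  π : Quotient r →[Sᵐᵒᵖ] X
  flat : IsFlat S (Quotient r)
  pt : Quotient r

/-- The flat act over `X` given by a code. -/
def Code.toFlat (c : Code S X) : FlatOver S X :=
  letI := c.act
  ⟨Quotient c.r, c.π, c.flat⟩

/-- The type given by a code. -/
def Code.toT (c : Code S X) : BigT S X := tau c.toFlat c.pt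

lemma code_surj : Surjective (Code.toT (S := S) (X := X)) := by
  rintro ⟨⟨G, x⟩⟩
  refine ⟨⟨Setoid.ker (eval (S := S) x), lsAct x, G.π.comp (incl x),
    (incl_pure x).isFlat G.flat, Quotient.mk _ Tm.pt⟩, ?_⟩
  exact Quotient.sound ⟨G, ⟨incl x, incl_pure x, fun _ => rfl⟩, Emb.id _, rfl⟩

instance : Small.{u} (BigT S X) := small_of_surjective code_surj

end LS

section Weak

variable {S : Type u} [Monoid S] {X : Type u} [MulAction Sᵐᵒᵖ X]

lemma WPure.of_inv {A : Type v} {B : Type w} [MulAction Sᵐᵒᵖ A] [MulAction Sᵐᵒᵖ B]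
    (f : A →[Sᵐᵒᵖ] B) (g : B →[Sᵐᵒᵖ] A) (h : ∀ a, g (f a) = a) : WPure f where
  p1 w a a' h1 := by
    have := h1.map g
    rwa [h, h] at this
  p2 w a b h1 := by
    have := h1.map g
    rw [h] at this
    exact ⟨_, this⟩

/-- `T` is weakly terminal among the flat acts over `X`. -/
def Weak (T : FlatOver S X) : Prop :=
  ∀ G : FlatOver S X, ∃ f : G.carrier →[Sᵐᵒᵖ] T.carrier, ∀ x, T.π (f x) = G.π x

variable (S X) in
lemma exists_weak : ∃ T : FlatOver S X, Weak T := by
  let e := equivShrink.{u} (BigT S X)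
  let inst : MulAction Sᵐᵒᵖ (Shrink.{u} (BigT S X)) :=
    { smul := fun s y => e (s • e.symm y)
      one_smul := by
        intro y
        show e ((1 : Sᵐᵒᵖ) • e.symm y) = y
        rw [one_smul, e.apply_symm_apply]
      mul_smul := by
        intro s t y
        show e ((s * t) • e.symm y) = e (s • e.symm (e (t • e.symm y)))
        rw [e.symm_apply_apply, mul_smul] }
  let f1 : Shrink.{u} (BigT S X) →[Sᵐᵒᵖ] BigT S X := ⟨e.symm, fun s y => e.symm_apply_apply _⟩
  let f2 : BigT S X →[Sᵐᵒᵖ] Shrink.{u} (BigT S X) := ⟨e, fun s y => by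
    show e (s • y) = e (s • e.symm (e y))
    rw [e.symm_apply_apply]⟩
  have h12 : ∀ y, f2 (f1 y) = y := fun y => e.apply_symm_apply y
  have h21 : ∀ y, f1 (f2 y) = y := fun y => e.symm_apply_apply y
  refine ⟨⟨Shrink.{u} (BigT S X), (bigPi S X).comp f1, (WPure.of_inv f1 f2 h12).isFlat bigT_flat⟩,
    fun G => ⟨f2.comp (tau G), fun x => ?_⟩⟩
  show bigPi S X (f1 (f2 (tau G x))) = G.π x
  rw [h21]
  rfl

/-- Endomorphisms over `X`. -/
def EndOver (F : FlatOver S X) : Type u :=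
  {f : F.carrier →[Sᵐᵒᵖ] F.carrier // ∀ x, F.π (f x) = F.π x}

instance (F : FlatOver S X) : Monoid (EndOver F) where
  mul f g := ⟨f.1.comp g.1, fun x => (f.2 _).trans (g.2 x)⟩
  one := ⟨MulActionHom.id _, fun _ => rfl⟩
  mul_assoc _ _ _ := rfl
  one_mul _ := rfl
  mul_one _ := rfl

lemma EndOver.mul_apply {F : FlatOver S X} (f g : EndOver F) (x : F.carrier) :
    (f * g).1 x = f.1 (g.1 x) := rfl

lemma EndOver.one_apply {F : FlatOver S X} (x : F.carrier) :
    (1 : EndOver F).1 x = x := rfl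

lemma exists_lim {W : Type u} [LinearOrder W] (F : FlatOver S X) (h : W → W → EndOver F)
    (h1 : ∀ α, h α α = 1) (h2 : ∀ α β γ, α ≤ β → β ≤ γ → h β γ * h α β = h α γ) :
    ∃ (L : FlatOver S X) (ι : W → F.carrier →[Sᵐᵒᵖ] L.carrier),
      (∀ α x, L.π (ι α x) = F.π x) ∧
      (∀ α β, α ≤ β → ∀ x, ι β ((h α β).1 x) = ι α x) ∧ ∀ y, ∃ α x, ι α x = y := by
  have h3 : ∀ α β γ x, α ≤ β → β ≤ γ → (h β γ).1 ((h α β).1 x) = (h α γ).1 x := by
    intro α β γ x hα hβ
    rw [← h2 α β γ hα hβ]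
    rfl
  let st : Setoid (W × F.carrier) :=
    { r := fun p q => ∃ γ, p.1 ≤ γ ∧ q.1 ≤ γ ∧ (h p.1 γ).1 p.2 = (h q.1 γ).1 q.2
      iseqv := by
        refine ⟨fun p => ⟨p.1, le_rfl, le_rfl, rfl⟩, ?_, ?_⟩
        · rintro p q ⟨γ, h4, h5, h6⟩
          exact ⟨γ, h5, h4, h6.symm⟩
        · rintro p q r ⟨γ, h4, h5, h6⟩ ⟨δ, h7, h8, h9⟩
          refine ⟨max γ δ, h4.trans (le_max_left _ _), h8.trans (le_max_right _ _), ?_⟩
          rw [← h3 p.1 γ _ p.2 h4 (le_max_left _ _), h6, h3 q.1 γ _ q.2 h5 (le_max_left _ _),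
            ← h3 q.1 δ _ q.2 h7 (le_max_right _ _), h9, h3 r.1 δ _ r.2 h8 (le_max_right _ _)] }
  let inst : MulAction Sᵐᵒᵖ (Quotient st) :=
    { smul := fun s => Quotient.map (fun p => (p.1, s • p.2)) (by
        rintro p q ⟨γ, h4, h5, h6⟩
        refine ⟨γ, h4, h5, ?_⟩
        show (h p.1 γ).1 (s • p.2) = (h q.1 γ).1 (s • q.2)
        rw [map_smul, map_smul, h6])
      one_smul := by
        rintro ⟨p⟩
        exact congrArg (fun x => Quotient.mk st (p.1, x)) (one_smul _ p.2)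
      mul_smul := by
        rintro s t ⟨p⟩
        exact congrArg (fun x => Quotient.mk st (p.1, x)) (mul_smul s t p.2) }
  let ι : W → F.carrier →[Sᵐᵒᵖ] Quotient st := fun α =>
    ⟨fun x => Quotient.mk st (α, x), fun s x => rfl⟩
  have hι : ∀ α β, α ≤ β → ∀ x, ι β ((h α β).1 x) = ι α x := by
    intro α β hαβ x
    refine Quotient.sound ⟨β, le_rfl, hαβ, ?_⟩
    show (h β β).1 ((h α β).1 x) = (h α β).1 x
    rw [h1]
    rfl
  let π : Quotient st →[Sᵐᵒᵖ] X :=
    ⟨Quotient.lift (fun p => F.π p.2) (by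
      rintro p q ⟨γ, h4, h5, h6⟩
      rw [← (h p.1 γ).2 p.2, ← (h q.1 γ).2 q.2, h6]), by
      rintro s ⟨p⟩
      exact map_smul F.π s p.2⟩
  have path : ∀ (w : List (Bool × S)) (p q : W × F.carrier),
      RPath w (ι p.1 p.2) (ι q.1 q.2) →
      ∃ γ, p.1 ≤ γ ∧ q.1 ≤ γ ∧ RPath w ((h p.1 γ).1 p.2) ((h q.1 γ).1 q.2) := by
    intro w
    induction w with
    | nil =>
      intro p q hpq
      exact Quotient.exact hpq
    | cons l w ih =>
      intro p q hpq
      rcases l with ⟨_ | _, s⟩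
      · have h4 : RPath w (op s • ι p.1 p.2) (ι q.1 q.2) := hpq
        rw [← map_smul] at h4
        obtain ⟨γ, h5, h6, h7⟩ := ih (p.1, op s • p.2) q h4
        refine ⟨γ, h5, h6, ?_⟩
        have h8 : RPath w ((h p.1 γ).1 (op s • p.2)) ((h q.1 γ).1 q.2) := h7
        rw [map_smul] at h8
        exact h8
      · obtain ⟨⟨r⟩, hr, h4⟩ := hpq
        obtain ⟨γ, h5, h6, h7⟩ := ih r q h4
        have hr' : Quotient.mk st (r.1, op s • r.2) = Quotient.mk st p := hr
        obtain ⟨δ, h8, h9, h10⟩ := Quotient.exact hr'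
        have h11 : (h r.1 δ).1 (op s • r.2) = (h p.1 δ).1 p.2 := h10
        have h8' : r.1 ≤ δ := h8
        refine ⟨max γ δ, h9.trans (le_max_right _ _), h6.trans (le_max_left _ _),
          (h r.1 (max γ δ)).1 r.2, ?_, ?_⟩
        · rw [← map_smul, ← h3 r.1 δ _ _ h8' (le_max_right _ _), h11,
            h3 p.1 δ _ _ h9 (le_max_right _ _)]
        · have h12 := h7.map (h γ (max γ δ)).1
          rw [h3 r.1 γ _ _ h5 (le_max_left _ _), h3 q.1 γ _ _ h6 (le_max_left _ _)] at h12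
          exact h12
  refine ⟨⟨Quotient st, π, ?_⟩, ι, fun α x => rfl, hι, ?_⟩
  · rw [isFlat_iff]
    rintro M N _ _ e he w ⟨p⟩ ⟨q⟩ m m' h4 h5
    obtain ⟨γ, h6, h7, h8⟩ := path w p q h4
    obtain ⟨w', h9, h10⟩ := (isFlat_iff.1 F.flat) M N e he w _ _ m m' h8 h5
    refine ⟨w', ?_, h10⟩
    have h11 := h9.map (ι γ)
    rw [hι _ _ h6, hι _ _ h7] at h11
    exact h11
  · rintro ⟨p⟩
    exact ⟨p.1, p.2, rfl⟩

/-- Every well-behaved linear system of endomorphisms has a cocone. -/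
def HasCocones (E : Type u) [Monoid E] : Prop :=
  ∀ (W : Type u) [LinearOrder W] (h : W → W → E), (∀ α, h α α = 1) →
    (∀ α β γ, α ≤ β → β ≤ γ → h β γ * h α β = h α γ) →
    ∃ k : W → E, ∀ α β, α ≤ β → k β * h α β = k α

lemma Weak.hasCocones {F : FlatOver S X} (hF : Weak F) : HasCocones (EndOver F) := by
  intro W _ h h1 h2
  obtain ⟨L, ι, h3, h4, h5⟩ := exists_lim F h h1 h2
  obtain ⟨r, hr⟩ := hF L
  refine ⟨fun α => ⟨r.comp (ι α), fun x => (hr _).trans (h3 α x)⟩, ?_⟩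
  intro α β hαβ
  apply Subtype.ext
  apply MulActionHom.ext
  intro x
  exact congrArg r (h4 α β hαβ x)

/-- Choice along a well-order. -/
lemma wf_choice {W : Type u} {V : Type v} [LinearOrder W] [WellFoundedLT W]
    (G : W → (W → V) → V → Prop)
    (hloc : ∀ α f g v, (∀ β < α, f β = g β) → G α f v → G α g v)
    (hex : ∀ α f, (∀ β < α, G β f (f β)) → ∃ v, G α f v) [Nonempty V] :
    ∃ f : W → V, ∀ α, G α f (f α) := by
  classical
  let ext : (α : W) → ((β : W) → β < α → V) → W → V := fun α p β =>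
    if h : β < α then p β h else Classical.arbitrary V
  let step : (α : W) → ((β : W) → β < α → V) → V := fun α p =>
    if h : ∃ v, G α (ext α p) v then h.choose else Classical.arbitrary V
  let f : W → V := WellFoundedLT.fix step
  have hf : ∀ α, f α = step α (fun β _ => f β) := fun α => WellFoundedLT.fix_eq step α
  refine ⟨f, fun α => ?_⟩
  induction α using WellFoundedLT.induction with
  | ind α ih =>
    have h1 : ∀ β < α, ext α (fun β _ => f β) β = f β := fun β hβ => dif_pos hβ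
    obtain ⟨v, hv⟩ := hex α f ih
    have h2 : ∃ v, G α (ext α (fun β _ => f β)) v :=
      ⟨v, hloc α f _ v (fun β hβ => (h1 β hβ).symm) hv⟩
    have h3 : f α = h2.choose := by
      rw [hf α]
      exact dif_pos h2
    rw [h3]
    exact hloc α _ f _ h1 h2.choose_spec

lemma chain {E : Type u} [Monoid E] (hE : HasCocones E) (Bad : E → E → Prop)
    (B1 : ∀ f, ∃ g, Bad f g) (B2 : ∀ f g k, Bad f g → Bad f (k * g)) (W : Type u)
    [LinearOrder W] [WellFoundedLT W] (o : W) :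
    ∃ h : W → W → E, (∀ α, h α α = 1) ∧
      (∀ α β γ, α ≤ β → β ≤ γ → h β γ * h α β = h α γ) ∧
      ∀ α β, α < β → Bad (h o α) (h α β) := by
  classical
  obtain ⟨f, hf⟩ := wf_choice (W := W) (V := W → E)
    (fun α f c => c α = 1 ∧ (∀ β < α, ∀ γ ≤ β, c β * f β γ = c γ) ∧ ∀ β < α, Bad (f β o) (c β))
    (by
      rintro α f g c hfg ⟨h1, h2, h3⟩
      refine ⟨h1, fun β hβ γ hγ => ?_, fun β hβ => ?_⟩
      · rw [← hfg β hβ]
        exact h2 β hβ γ hγ
      · rw [← hfg β hβ]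
        exact h3 β hβ)
    (by
      intro α f hf
      have hcoh : ∀ δ < α, ∀ β ≤ δ, ∀ γ ≤ β, f δ β * f β γ = f δ γ := by
        intro δ hδ β hβ γ hγ
        rcases hβ.lt_or_eq with h | h
        · exact (hf δ hδ).2.1 β h γ hγ
        · subst h
          rw [(hf β hδ).1, one_mul]
      by_cases hmax : ∃ β < α, ∀ γ < α, γ ≤ β
      · obtain ⟨β, hβ, hm⟩ := hmax
        obtain ⟨g, hg⟩ := B1 (f β o)
        refine ⟨fun γ => if γ = α then 1 else g * f β γ, if_pos rfl, ?_, ?_⟩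
        · intro β' hβ' γ hγ
          have h1 : γ < α := lt_of_le_of_lt hγ hβ'
          simp only [if_neg hβ'.ne, if_neg h1.ne]
          rw [mul_assoc, hcoh β hβ β' (hm _ hβ') γ hγ]
        · intro β' hβ'
          simp only [if_neg hβ'.ne]
          rcases (hm _ hβ').lt_or_eq with h | h
          · exact B2 _ _ _ ((hf β hβ).2.2 β' h)
          · subst h
            rw [(hf β' hβ).1, mul_one]
            exact hg
      · push Not at hmax
        obtain ⟨k, hk⟩ := hE {β : W // β < α} (fun γ β => f β.1 γ.1)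
          (fun β => (hf β.1 β.2).1)
          (fun γ β δ h1 h2 => hcoh δ.1 δ.2 β.1 h2 γ.1 h1)
        refine ⟨fun γ => if h : γ < α then k ⟨γ, h⟩ else 1, dif_neg (lt_irrefl α), ?_, ?_⟩
        · intro β hβ γ hγ
          simp only [dif_pos hβ, dif_pos (lt_of_le_of_lt hγ hβ)]
          exact hk ⟨γ, _⟩ ⟨β, hβ⟩ hγ
        · intro β hβ
          obtain ⟨γ, hγ, hβγ⟩ := hmax β hβ
          simp only [dif_pos hβ]
          rw [← hk ⟨β, hβ⟩ ⟨γ, hγ⟩ hβγ.le]
          exact B2 _ _ _ ((hf γ hγ).2.2 β hβγ))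
  refine ⟨fun γ β => f β γ, fun α => (hf α).1, ?_, ?_⟩
  · intro α β γ h1 h2
    rcases h2.lt_or_eq with h | h
    · exact (hf γ).2.1 β h α h1
    · subst h
      show f β β * f β α = f β α
      rw [(hf β).1, one_mul]
  · intro α β h
    exact (hf β).2.2 α h

end Weak

section Cover

variable {S : Type u} [Monoid S] {X : Type u} [MulAction Sᵐᵒᵖ X]

/-- A type too large to be embedded in `α`. -/
def Big (α : Type u) : Type u := Set α

lemma exists_big (α : Type u) : ∃ (W : Type u) (_ : LinearOrder W) (_ : WellFoundedLT W)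
    (o : W), (∀ x, o ≤ x) ∧ ∀ f : W → α, ¬ Injective f := by
  obtain ⟨i1, i2⟩ := exists_wellFoundedLT (Big α)
  have hne : (Set.univ : Set (Big α)).Nonempty := ⟨(∅ : Set α), trivial⟩
  refine ⟨Big α, i1, i2, wellFounded_lt.min Set.univ hne,
    fun x => not_lt.1 (wellFounded_lt.not_lt_min Set.univ (Set.mem_univ x)),
    fun f => Function.cantor_injective f⟩

lemma exists_max_kernel {T : FlatOver S X} (hT : Weak T) :
    ∃ f : EndOver T, ∀ (g : EndOver T) (x y : T.carrier),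
      g.1 (f.1 x) = g.1 (f.1 y) → f.1 x = f.1 y := by
  by_contra hcon
  push Not at hcon
  obtain ⟨W, _, _, o, ho, hW⟩ := exists_big (Set (T.carrier × T.carrier))
  obtain ⟨h, h1, h2, h3⟩ := chain hT.hasCocones
    (fun f g => ∃ x y, g.1 (f.1 x) = g.1 (f.1 y) ∧ f.1 x ≠ f.1 y) hcon
    (by
      rintro f g k ⟨x, y, h1, h2⟩
      exact ⟨x, y, congrArg k.1 h1, h2⟩)
    W o
  refine hW (fun β => {p : T.carrier × T.carrier | (h o β).1 p.1 = (h o β).1 p.2}) ?_
  have key : ∀ β γ, β < γ →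
      {p : T.carrier × T.carrier | (h o β).1 p.1 = (h o β).1 p.2} ≠
      {p : T.carrier × T.carrier | (h o γ).1 p.1 = (h o γ).1 p.2} := by
    intro β γ hβγ heq
    obtain ⟨x, y, h4, h5⟩ := h3 β γ hβγ
    have h6 : (x, y) ∈ {p : T.carrier × T.carrier | (h o γ).1 p.1 = (h o γ).1 p.2} := by
      show (h o γ).1 x = (h o γ).1 y
      rw [← h2 o β γ (ho β) hβγ.le]
      exact h4
    rw [← heq] at h6
    exact h5 h6
  intro β γ heq
  rcases lt_trichotomy β γ with hlt | hlt | hlt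
  · exact absurd heq (key β γ hlt)
  · exact hlt
  · exact absurd heq.symm (key γ β hlt)

/-- Powers of an endomorphism form a linear system. -/
lemma exists_injective {T : FlatOver S X} (hT : Weak T) :
    ∃ C : FlatOver S X, Weak C ∧ ∀ f : EndOver C, Injective f.1 := by
  obtain ⟨f, hf⟩ := exists_max_kernel hT
  obtain ⟨C, ι, h1, h2, h3⟩ := exists_lim (W := ULift.{u} ℕ) T
    (fun m n => f ^ (n.down - m.down)) (fun α => by simp)
    (fun α β γ h4 h5 => by
      rw [← pow_add]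
      congr 1
      have h4' : α.down ≤ β.down := h4
      have h5' : β.down ≤ γ.down := h5
      omega)
  have hC : Weak C := by
    intro G
    obtain ⟨g, hg⟩ := hT G
    exact ⟨(ι ⟨0⟩).comp g, fun x => (h1 _ _).trans (hg x)⟩
  refine ⟨C, hC, ?_⟩
  intro g c c' hgc
  obtain ⟨⟨m⟩, x, rfl⟩ := h3 c
  obtain ⟨⟨n⟩, y, rfl⟩ := h3 c'
  obtain ⟨r, hr⟩ := hT C
  let N : ℕ := max m n
  have hm : (⟨m⟩ : ULift.{u} ℕ) ≤ ⟨N⟩ := le_max_left m n
  have hn : (⟨n⟩ : ULift.{u} ℕ) ≤ ⟨N⟩ := le_max_right m n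
  rw [← h2 _ _ hm, ← h2 _ _ hn] at hgc ⊢
  generalize (f ^ ((⟨N⟩ : ULift.{u} ℕ).down - (⟨m⟩ : ULift.{u} ℕ).down)).1 x = x' at hgc ⊢
  generalize (f ^ ((⟨N⟩ : ULift.{u} ℕ).down - (⟨n⟩ : ULift.{u} ℕ).down)).1 y = y' at hgc ⊢
  have hN : (⟨N⟩ : ULift.{u} ℕ) ≤ ⟨N + 1⟩ := Nat.le_succ N
  have hf1 : f ^ ((⟨N + 1⟩ : ULift.{u} ℕ).down - (⟨N⟩ : ULift.{u} ℕ).down) = f := by
    show f ^ (N + 1 - N) = f
    rw [Nat.add_sub_cancel_left, pow_one]
  have h4 : ∀ z, ι ⟨N + 1⟩ (f.1 z) = ι ⟨N⟩ z := by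
    intro z
    rw [← h2 _ _ hN z, hf1]
  rw [← h4 x', ← h4 y'] at hgc ⊢
  congr 1
  apply hf ⟨r.comp (g.1.comp (ι ⟨N + 1⟩)), fun z => ((hr _).trans (g.2 _)).trans (h1 _ _)⟩
  exact congrArg r hgc

lemma surj_of_injective {C : FlatOver S X} (hC : Weak C) (hinj : ∀ f : EndOver C, Injective f.1)
    (f : EndOver C) : Surjective f.1 := by
  by_contra hcon
  obtain ⟨W, _, _, o, ho, hW⟩ := exists_big (Set C.carrier)
  obtain ⟨h, h1, h2, h3⟩ := chain hC.hasCocones (fun _ g => ¬ Surjective g.1)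
    (fun _ => ⟨f, hcon⟩)
    (by
      intro _ g k hg hkg
      apply hg
      intro y
      obtain ⟨x, hx⟩ := hkg (k.1 y)
      exact ⟨x, hinj k hx⟩)
    W o
  obtain ⟨k, hk⟩ := hC.hasCocones _ h h1 h2
  refine hW (fun β => Set.range (k β).1) ?_
  have key : ∀ β γ, β < γ → Set.range (k β).1 ≠ Set.range (k γ).1 := by
    intro β γ hβγ heq
    apply h3 β γ hβγ
    intro z
    have h6 : (k γ).1 z ∈ Set.range (k γ).1 := ⟨z, rfl⟩
    rw [← heq, ← hk β γ hβγ.le] at h6
    obtain ⟨x, hx⟩ := h6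
    exact ⟨x, hinj _ hx⟩
  intro β γ heq
  rcases lt_trichotomy β γ with hlt | hlt | hlt
  · exact absurd heq (key β γ hlt)
  · exact hlt
  · exact absurd heq.symm (key γ β hlt)

lemma self_flat : IsFlat S S := by
  rw [isFlat_iff]
  intro M N _ _ e he w a a' m m' h1 h2
  have key : ∀ (w : List (Bool × S)) (a a' : S) (n n' : N), RPath w a a' → LPath w n n' →
      a • n = a' • n' := by
    intro w
    induction w with
    | nil =>
      intro a a' n n' h1 h2
      rw [show a = a' from h1, show n = n' from h2]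
    | cons l w ih =>
      intro a a' n n' h1 h2
      rcases l with ⟨_ | _, s⟩
      · obtain ⟨k, rfl, h2⟩ := h2
        rw [← ih _ _ _ _ h1 h2, smul_smul]
        rfl
      · obtain ⟨b, rfl, h1⟩ := h1
        rw [← ih _ _ _ _ h1 h2, smul_smul]
        rfl
  have h3 := key w a a' _ _ h1 h2
  rw [← map_smul, ← map_smul] at h3
  refine ⟨[(true, a), (false, a')], ⟨1, ?_, ?_⟩, m', ?_, rfl⟩
  · show (1 : S) * a = a
    exact one_mul a
  · show (1 : S) * a' = a'
    exact one_mul a'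
  · exact (he h3).symm

end Cover

/-- The flat cover conjecture holds for the category of acts over every monoid `S`: every right
`S`-act has a flat cover. -/
theorem result (S : Type u) [Monoid S] (X : Type u) [MulAction Sᵐᵒᵖ X] [Nonempty X] :
    ∃ (F : Type u) (_ : MulAction Sᵐᵒᵖ F) (g : F →[Sᵐᵒᵖ] X), IsFlatCover S g := by
  obtain ⟨T, hT⟩ := exists_weak S X
  obtain ⟨C, hC, hinj⟩ := exists_injective hT
  refine ⟨C.carrier, C.act, C.π, ?_, C.flat, ?_, ?_⟩
  · obtain ⟨x⟩ := ‹Nonempty X›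
    obtain ⟨f, -⟩ := hC ⟨S, ⟨fun s => op s • x, fun t s => by
      show op (s * t.unop) • x = t • op s • x
      rw [op_mul, mul_smul, op_unop]⟩, self_flat⟩
    exact ⟨f (1 : S)⟩
  · intro F' _ hF' h
    exact hC ⟨F', h, hF'⟩
  · intro f hf
    have hb : Bijective f := ⟨hinj ⟨f, hf⟩, surj_of_injective hC hinj ⟨f, hf⟩⟩
    let e := Equiv.ofBijective f hb
    refine ⟨⟨e.symm, ?_⟩, e.symm_apply_apply, e.apply_symm_apply⟩
    intro s x
    have h1 : ∀ y, f (e.symm y) = y := e.apply_symm_apply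
    have h2 : ∀ z, f (s • z) = s • f z := map_smul f s
    have h3 : s • f (e.symm x) = s • x := congrArg (fun z => s • z) (h1 x)
    exact hb.1 ((h1 (s • x)).trans (h3.symm.trans (h2 _).symm))

end Pool.Agent.Results.MP_6a819e_al.FlatCoverConjecture
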